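import Pool.Agent.K3h91.OSC.System

/-!
Deterministic online set cover on set systems of VC-dimension at most 2 has competitive ratio
of order at least `log ^ 2 n`.

The set system is the dual of the system of the library `Pool.Agent.K3h91.OSC` (starting files).
-/

namespace Pool.Agent.Results.MP_ba67f2_lc.SetCoverLower

open Finset

/-- An input of the online set cover problem on the set system `(Fin n, 𝒮)`: a list of points, in
their order of arrival, each of which lies in some member of `𝒮`. -/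
def IsInput {n : ℕ} (𝒮 : Finset (Finset (Fin n))) (h : List (Fin n)) : Prop :=
  ∀ v ∈ h, ∃ s ∈ 𝒮, v ∈ s

/-- Every point of the list `h` lies in a member of `C`. -/
def IsCover {n : ℕ} (C : Finset (Finset (Fin n))) (h : List (Fin n)) : Prop :=
  ∀ v ∈ h, ∃ s ∈ C, v ∈ s

/-- The minimum size of a subfamily of `𝒮` that covers the points in the list `h`. -/
noncomputable def opt {n : ℕ} (𝒮 : Finset (Finset (Fin n))) (h : List (Fin n)) : ℕ :=
  sInf {k | ∃ C : Finset (Finset (Fin n)), C ⊆ 𝒮 ∧ IsCover C h ∧ C.card = k}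

/-- A deterministic online algorithm for set cover on the set system `(Fin n, 𝒮)` (it may depend
on the whole system): `sel h` is the family of sets selected once the points of the list `h` have
arrived in this order; selections are irrevocable, and after each arrival every arrived point
lies in a selected set. Any number of sets may be selected at any time. -/
structure OnlineAlg {n : ℕ} (𝒮 : Finset (Finset (Fin n))) where
  /-- the selected sets after the arrival of the points in the list -/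
  sel : List (Fin n) → Finset (Finset (Fin n))
  sub : ∀ h, IsInput 𝒮 h → sel h ⊆ 𝒮
  irrevocable : ∀ h v, IsInput 𝒮 (h ++ [v]) → sel h ⊆ sel (h ++ [v])
  covers : ∀ h, IsInput 𝒮 h → IsCover (sel h) h

lemma opt_le {n : ℕ} {𝒮 : Finset (Finset (Fin n))} {h : List (Fin n)}
    {C : Finset (Finset (Fin n))} (h1 : C ⊆ 𝒮) (h2 : IsCover C h) : opt 𝒮 h ≤ C.card :=
  Nat.sInf_le ⟨C, h1, h2, rfl⟩

lemma opt_pos {n : ℕ} {𝒮 : Finset (Finset (Fin n))} {h : List (Fin n)}
    {C : Finset (Finset (Fin n))} (h1 : C ⊆ 𝒮) (h2 : IsCover C h) (hne : h ≠ []) :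
    0 < opt 𝒮 h := by
  have hmem : opt 𝒮 h ∈ {k | ∃ C : Finset (Finset (Fin n)), C ⊆ 𝒮 ∧ IsCover C h ∧ C.card = k} :=
    Nat.sInf_mem ⟨C.card, C, h1, h2, rfl⟩
  obtain ⟨C', _, hC', hc⟩ := hmem
  rw [← hc, card_pos]
  obtain ⟨v, hv⟩ := List.exists_mem_of_ne_nil h hne
  obtain ⟨s, hs, _⟩ := hC' v hv
  exact ⟨s, hs⟩

open Pool.Agent.K3h91.OSC in
/-- There are `c > 0` and `n₀` such that for every `n ≥ n₀` there is a set system on `n` points, of
VC-dimension at most 2, on which every deterministic online set cover algorithm has an input on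
which its cost is at least `c (log n)² ` times the (positive) optimum. -/
theorem result : ∃ c : ℝ, 0 < c ∧ ∃ n₀ : ℕ, ∀ n ≥ n₀,
    ∃ 𝒮 : Finset (Finset (Fin n)), 𝒮.vcDim ≤ 2 ∧
      ∀ A : OnlineAlg 𝒮, ∃ h, IsInput 𝒮 h ∧ 0 < opt 𝒮 h ∧
        c * (Real.log n) ^ 2 * opt 𝒮 h ≤ (A.sel h).card := by
  classical
  refine ⟨1 / 1000000, by norm_num, 2 ^ 3500, fun n hn => ?_⟩
  obtain ⟨hx, hxn, hlog⟩ := log_bound (a := 3500) (by norm_num) hn
  set x := Nat.log 2 n / 3500 with hxdef
  have hL : 0 < 48 * x := by omega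
  obtain ⟨I, hnice, hrich, hIcard, hSne⟩ := exists_system hx hL
  have hq : 0 < 2 ^ (2000 * x) := by positivity
  have hn0 : 0 < n := lt_of_lt_of_le (by positivity) hn
  obtain ⟨e⟩ : Nonempty ({j // j ∈ I} ↪ Fin n) := by
    apply Function.Embedding.nonempty_of_card_le
    simp only [Fintype.card_coe, Fintype.card_fin]
    exact hIcard.trans hxn
  -- the sets of the dual system
  let T : X (1000 * x) (2 ^ (2000 * x)) → Finset (Fin n) := fun p =>
    ((univ : Finset {j // j ∈ I}).filter (fun j => p ∈ S (H := 1000 * x) hL j.1)).map e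
  have hT : ∀ (p : X (1000 * x) (2 ^ (2000 * x))) (j : {j // j ∈ I}),
      e j ∈ T p ↔ p ∈ S (H := 1000 * x) hL j.1 := by
    intro p j
    simp [T]
  have hTr : ∀ (p : X (1000 * x) (2 ^ (2000 * x))) (v : Fin n), v ∈ T p → ∃ j, e j = v := by
    intro p v hv
    obtain ⟨j, _, hj⟩ := mem_map.1 hv
    exact ⟨j, hj⟩
  -- the point with a given index
  let F : J (48 * x) (2 ^ (2000 * x)) → Fin n := fun j =>
    if hj : j ∈ I then e ⟨j, hj⟩ else ⟨0, hn0⟩
  have hF : ∀ (j : J (48 * x) (2 ^ (2000 * x))) (hj : j ∈ I), F j = e ⟨j, hj⟩ := by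
    intro j hj
    simp only [F, dif_pos hj]
  refine ⟨(univ : Finset (X (1000 * x) (2 ^ (2000 * x)))).image T, ?_, ?_⟩
  · unfold vcDim
    refine Finset.sup_le fun s hs => ?_
    rw [mem_shatterer] at hs
    by_contra hcon
    push Not at hcon
    obtain ⟨a, b, c, ha, hb, hc, hab, hac, hbc⟩ := two_lt_card_iff.1 hcon
    obtain ⟨u1, hu1, h1⟩ := hs (subset_refl s)
    obtain ⟨u2, hu2, h2⟩ := hs (show {a, b} ⊆ s by
      intro y hy; rw [mem_insert, mem_singleton] at hy; rcases hy with rfl | rfl <;> assumption)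
    obtain ⟨u3, hu3, h3⟩ := hs (show {b, c} ⊆ s by
      intro y hy; rw [mem_insert, mem_singleton] at hy; rcases hy with rfl | rfl <;> assumption)
    rw [mem_image] at hu1 hu2 hu3
    obtain ⟨p1, _, rfl⟩ := hu1
    obtain ⟨p2, _, rfl⟩ := hu2
    obtain ⟨p3, _, rfl⟩ := hu3
    have key1 : ∀ y ∈ s, y ∈ T p1 := by
      intro y hy
      rw [← h1] at hy
      exact (mem_inter.1 hy).2
    have key2 : ∀ y ∈ s, (y ∈ T p2 ↔ y = a ∨ y = b) := by
      intro y hy
      have : y ∈ s ∩ T p2 ↔ y ∈ ({a, b} : Finset (Fin n)) := by rw [h2]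
      simpa [hy] using this
    have key3 : ∀ y ∈ s, (y ∈ T p3 ↔ y = b ∨ y = c) := by
      intro y hy
      have : y ∈ s ∩ T p3 ↔ y ∈ ({b, c} : Finset (Fin n)) := by rw [h3]
      simpa [hy] using this
    obtain ⟨ja, rfl⟩ := hTr p1 _ (key1 _ ha)
    obtain ⟨jb, rfl⟩ := hTr p1 _ (key1 _ hb)
    obtain ⟨jc, rfl⟩ := hTr p1 _ (key1 _ hc)
    refine dvc3 hnice ja.2 jb.2 jc.2 (fun h => hab (congrArg e (Subtype.ext h)))
      (fun h => hbc (congrArg e (Subtype.ext h)))
      ((hT _ _).1 (key1 _ ha)) ((hT _ _).1 (key1 _ hb)) ((hT _ _).1 (key1 _ hc))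
      ((hT _ _).1 ((key2 _ ha).2 (Or.inl rfl))) ((hT _ _).1 ((key2 _ hb).2 (Or.inr rfl))) ?_ ?_
      ((hT _ _).1 ((key3 _ hb).2 (Or.inl rfl))) ((hT _ _).1 ((key3 _ hc).2 (Or.inr rfl)))
    · intro hmem
      rcases (key2 _ hc).1 ((hT _ _).2 hmem) with h | h
      · exact hac h.symm
      · exact hbc h.symm
    · intro hmem
      rcases (key3 _ ha).1 ((hT _ _).2 hmem) with h | h
      · exact hab h
      · exact hac h
  · intro A
    -- a point of the primal system that represents a given set of the dual system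
    let rep : Finset (Fin n) → X (1000 * x) (2 ^ (2000 * x)) := fun s =>
      if hs : ∃ p, T p = s then hs.choose else (⟨0, hq⟩, ⟨0, by positivity⟩)
    have hrep : ∀ s, (∃ p, T p = s) → T (rep s) = s := by
      intro s hs
      simp only [rep, dif_pos hs]
      exact hs.choose_spec
    let alg : List (J (48 * x) (2 ^ (2000 * x))) → Finset (X (1000 * x) (2 ^ (2000 * x))) :=
      fun h => (A.sel (h.map F)).image rep
    have hinput : ∀ h : List (J (48 * x) (2 ^ (2000 * x))), (∀ j ∈ h, j ∈ I) →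
        IsInput ((univ : Finset (X (1000 * x) (2 ^ (2000 * x)))).image T) (h.map F) := by
      intro h h1 v hv
      rw [List.mem_map] at hv
      obtain ⟨j, hj, rfl⟩ := hv
      obtain ⟨p, hp⟩ := hSne j (h1 j hj)
      refine ⟨T p, mem_image_of_mem _ (mem_univ _), ?_⟩
      rw [hF j (h1 j hj)]
      exact (hT _ _).2 hp
    have halg : Alg hL I alg := by
      constructor
      · intro h j hh hj
        refine image_subset_image ?_
        rw [List.map_append]
        refine A.irrevocable (h.map F) (F j) ?_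
        have := hinput (h ++ [j]) (by
          intro i hi
          rw [List.mem_append, List.mem_singleton] at hi
          rcases hi with hi | rfl
          · exact hh i hi
          · exact hj)
        rw [List.map_append] at this
        exact this
      · intro h hh j hj
        obtain ⟨s, hs1, hs2⟩ := A.covers (h.map F) (hinput h hh) (F j) (List.mem_map_of_mem hj)
        refine ⟨rep s, mem_image_of_mem _ hs1, ?_⟩
        have hs3 := A.sub _ (hinput h hh) hs1
        rw [mem_image] at hs3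
        obtain ⟨p, _, hp⟩ := hs3
        have h4 := hrep s ⟨p, hp⟩
        rw [hF j (hh j hj), ← h4] at hs2
        exact (hT _ ⟨j, hh j hj⟩).1 hs2
    obtain ⟨h, hne, hhI, ⟨z, hz⟩, hcost⟩ := core hx hL hq hrich halg
    have hsubC : (univ : Finset (Fin (2 ^ (2000 * x)))).image (fun i => T (i, z)) ⊆
        (univ : Finset (X (1000 * x) (2 ^ (2000 * x)))).image T := by
      intro s hs
      rw [mem_image] at hs
      obtain ⟨i, _, rfl⟩ := hs
      exact mem_image_of_mem _ (mem_univ _)
    have hcov : IsCover ((univ : Finset (Fin (2 ^ (2000 * x)))).image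
        (fun i => T (i, z))) (h.map F) := by
      intro v hv
      rw [List.mem_map] at hv
      obtain ⟨j, hj, rfl⟩ := hv
      obtain ⟨i, hi⟩ := hz j hj
      refine ⟨T (i, z), mem_image_of_mem (fun i => T (i, z)) (mem_univ _), ?_⟩
      rw [hF j (hhI j hj)]
      exact (hT _ _).2 hi
    have hopt : opt ((univ : Finset (X (1000 * x) (2 ^ (2000 * x)))).image T) (h.map F) ≤
        2 ^ (2000 * x) := by
      refine (opt_le hsubC hcov).trans (card_image_le.trans ?_)
      rw [card_univ, Fintype.card_fin]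
    refine ⟨h.map F, hinput h hhI, opt_pos hsubC hcov (by simpa using hne), ?_⟩
    have hcard : (alg h).card ≤ (A.sel (h.map F)).card := card_image_le
    have hlog0 : 0 ≤ Real.log n := Real.log_natCast_nonneg n
    have hlog2 : (Real.log n) ^ 2 ≤ (7000 * x) ^ 2 := by
      refine pow_le_pow_left₀ hlog0 (hlog.trans (le_of_eq ?_)) 2
      push_cast
      ring
    have hopt' : ((opt ((univ : Finset (X (1000 * x) (2 ^ (2000 * x)))).image T)
        (h.map F) : ℕ) : ℝ) ≤ ((2 ^ (2000 * x) : ℕ) : ℝ) := by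
      exact_mod_cast hopt
    calc (1 / 1000000 : ℝ) * (Real.log n) ^ 2 *
          (opt ((univ : Finset (X (1000 * x) (2 ^ (2000 * x)))).image T) (h.map F) : ℕ)
        ≤ 1 / 1000000 * (7000 * x) ^ 2 * ((2 ^ (2000 * x) : ℕ) : ℝ) := by gcongr
      _ ≤ 488 * (x : ℝ) ^ 2 * ((2 ^ (2000 * x) : ℕ) : ℝ) := by
          refine mul_le_mul_of_nonneg_right ?_ (by positivity)
          nlinarith [sq_nonneg (x : ℝ)]
      _ = ((488 * x ^ 2 * 2 ^ (2000 * x) : ℕ) : ℝ) := by push_cast; ring
      _ ≤ ((alg h).card : ℝ) := by exact_mod_cast hcost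
      _ ≤ ((A.sel (h.map F)).card : ℝ) := by exact_mod_cast hcard

end Pool.Agent.Results.MP_ba67f2_lc.SetCoverLower
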